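import Pool.Agent.MP_c1891a_nt.H43.Spec

/-
A common zero very near a torsion point forces infinitely many common zeros.
-/

namespace Pool.Agent.MP_c1891a_nt.H43

open Finset Polynomial

lemma twoB_ex (P : LP) (v₁ v₂ : ℤ) {μ : ℤ × ℤ} (hμ : μ ∈ P.coeff.support) :
    (ex P v₁ v₂ μ : ℤ) = (A1 P v₁ v₂ : ℤ) + v₁ * μ.1 + v₂ * μ.2 := by
  have h : max μ.1.natAbs μ.2.natAbs ≤ Rn P :=
    Finset.le_sup (f := fun μ : ℤ × ℤ => max μ.1.natAbs μ.2.natAbs) hμ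
  have h1 : |μ.1| ≤ (Rn P : ℤ) := by
    rw [← Int.natCast_natAbs]; exact_mod_cast (le_max_left _ _).trans h
  have h2 : |μ.2| ≤ (Rn P : ℤ) := by
    rw [← Int.natCast_natAbs]; exact_mod_cast (le_max_right _ _).trans h
  have h3 : |v₁ * μ.1| ≤ |v₁| * Rn P := by
    rw [abs_mul]; exact mul_le_mul_of_nonneg_left h1 (abs_nonneg _)
  have h4 : |v₂ * μ.2| ≤ |v₂| * Rn P := by
    rw [abs_mul]; exact mul_le_mul_of_nonneg_left h2 (abs_nonneg _)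
  have h5 : (A1 P v₁ v₂ : ℤ) = Rn P * (|v₁| + |v₂|) := by
    unfold A1; push_cast; rfl
  unfold ex
  rw [Int.toNat_of_nonneg]
  have := neg_abs_le (v₁ * μ.1)
  have := neg_abs_le (v₂ * μ.2)
  rw [h5]
  nlinarith

lemma twoB_eval (P : LP) (η₁ η₂ p q : ℂ) (v₁ v₂ w₁ w₂ : ℤ) (hp : p ≠ 0) (hq : q ≠ 0) :
    (F2 P η₁ η₂ v₁ v₂ w₁ w₂).evalEval p q =
      p ^ A1 P v₁ v₂ * q ^ A1 P w₁ w₂ * ev P (η₁ * p ^ v₁ * q ^ w₁) (η₂ * p ^ v₂ * q ^ w₂) := by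
  unfold F2 ev
  rw [evalEval_finset_sum, Finset.mul_sum]
  refine Finset.sum_congr rfl fun μ hμ => ?_
  have e1 : p ^ ex P v₁ v₂ μ = p ^ A1 P v₁ v₂ * (p ^ v₁) ^ μ.1 * (p ^ v₂) ^ μ.2 := by
    rw [← zpow_natCast, twoB_ex P v₁ v₂ hμ, zpow_add₀ hp, zpow_add₀ hp, zpow_natCast, zpow_mul,
      zpow_mul]
  have e2 : q ^ ex P w₁ w₂ μ = q ^ A1 P w₁ w₂ * (q ^ w₁) ^ μ.1 * (q ^ w₂) ^ μ.2 := by
    rw [← zpow_natCast, twoB_ex P w₁ w₂ hμ, zpow_add₀ hq, zpow_add₀ hq, zpow_natCast, zpow_mul,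
      zpow_mul]
  simp only [evalEval_mul, evalEval_C, evalEval_pow, evalEval_X, eval_mul, eval_C, eval_pow,
    eval_X, mul_zpow]
  rw [e1, e2]
  ring

lemma twoB_ne (P : LP) (η₁ η₂ p q : ℂ) (v₁ v₂ w₁ w₂ : ℤ) (hp : p ≠ 0) (hq : q ≠ 0)
    (h : ev P (η₁ * p ^ v₁ * q ^ w₁) (η₂ * p ^ v₂ * q ^ w₂) ≠ 0) :
    F2 P η₁ η₂ v₁ v₂ w₁ w₂ ≠ 0 := by
  intro h0
  have := twoB_eval P η₁ η₂ p q v₁ v₂ w₁ w₂ hp hq
  rw [h0, evalEval_zero] at this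
  exact mul_ne_zero (mul_ne_zero (pow_ne_zero _ hp) (pow_ne_zero _ hq)) h this.symm

lemma twoB_pow {x : ℂ} {η : ℝ} (h : ‖x - 1‖ ≤ η) (n : ℕ) : ‖x ^ n - 1‖ ≤ (1 + η) ^ n - 1 := by
  have h0 : 0 ≤ η := (norm_nonneg _).trans h
  have hx : ‖x‖ ≤ 1 + η := by
    have : ‖x‖ ≤ ‖x - 1‖ + ‖(1 : ℂ)‖ := by simpa using norm_add_le (x - 1) 1
    rw [norm_one] at this
    linarith
  induction n with
  | zero => simp
  | succ n ih =>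
    have e : x ^ (n + 1) - 1 = x * (x ^ n - 1) + (x - 1) := by ring
    rw [e]
    refine (norm_add_le _ _).trans ?_
    rw [norm_mul]
    have := mul_le_mul hx ih (norm_nonneg _) (by linarith)
    rw [pow_succ]
    nlinarith

lemma twoB_pow' {x : ℂ} {η : ℝ} (h : ‖x - 1‖ ≤ η) (n : ℕ) (hn : η * n ≤ 1) :
    ‖x ^ n - 1‖ ≤ 2 * (η * n) := by
  have h0 : 0 ≤ η := (norm_nonneg _).trans h
  have h1 : (1 + η) ^ n ≤ Real.exp (η * n) := by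
    rw [mul_comm η, Real.exp_nat_mul]
    exact pow_le_pow_left₀ (by linarith) (by linarith [Real.add_one_le_exp η]) n
  have h2 : 0 ≤ η * n := by positivity
  have h3 := Real.abs_exp_sub_one_le (x := η * n) (by rw [abs_of_nonneg h2]; exact hn)
  rw [abs_of_nonneg h2] at h3
  have h4 := le_abs_self (Real.exp (η * n) - 1)
  linarith [twoB_pow h n]

lemma twoB_zpow {x : ℂ} {ε B : ℝ} (h : ‖x - 1‖ ≤ ε) (hε : ε ≤ 1 / 2) (j : ℤ)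
    (hj : (|j| : ℝ) ≤ B) (hB : 2 * ε * B ≤ 1) : ‖x ^ j - 1‖ ≤ 4 * ε * B := by
  have h0 : 0 ≤ ε := (norm_nonneg _).trans h
  have hx : 1 / 2 ≤ ‖x‖ := by
    have : ‖(1 : ℂ)‖ ≤ ‖x‖ + ‖x - 1‖ := by simpa using norm_sub_le x (x - 1)
    rw [norm_one] at this
    linarith
  have hx0 : x ≠ 0 := by
    intro h; rw [h, norm_zero] at hx; norm_num at hx
  have key : ∀ (y : ℂ) (n : ℕ), ‖y - 1‖ ≤ 2 * ε → (n : ℝ) ≤ B → ‖y ^ n - 1‖ ≤ 4 * ε * B := by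
    intro y n hy hn
    have h1 : 2 * ε * n ≤ 2 * ε * B := mul_le_mul_of_nonneg_left hn (by linarith)
    have := twoB_pow' hy n (h1.trans hB)
    linarith
  obtain ⟨n, rfl | rfl⟩ := Int.eq_nat_or_neg j
  · rw [zpow_natCast]
    refine key x n (by linarith) ?_
    simpa using hj
  · rw [zpow_neg, zpow_natCast, ← inv_pow]
    refine key x⁻¹ n ?_ (by simpa using hj)
    have e : x⁻¹ - 1 = -(x - 1) / x := by field_simp; ring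
    rw [e, norm_div, norm_neg, div_le_iff₀ (by linarith)]
    nlinarith

lemma twoB_norm {x : ℂ} (h : Tor x) : ‖x‖ = 1 := by
  obtain ⟨n, hn, hx⟩ := h
  exact Complex.norm_eq_one_of_pow_eq_one hx hn.ne'

lemma twoB_alg {x : ℂ} (h : Tor x) : IsAlgebraic ℚ x := by
  obtain ⟨n, hn, hx⟩ := h
  exact IsAlgebraic.of_pow hn (by rw [hx]; exact isAlgebraic_one)

lemma twoB_algz {x : ℂ} (h : IsAlgebraic ℚ x) (j : ℤ) : IsAlgebraic ℚ (x ^ j) := by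
  obtain ⟨n, rfl | rfl⟩ := Int.eq_nat_or_neg j
  · rw [zpow_natCast]; exact h.pow n
  · rw [zpow_neg, zpow_natCast]; exact (h.pow n).inv

lemma twoB_one {x : ℂ} {n : ℕ} (hn : 0 < n) (hx : x ^ n = 1)
    (h : ∀ i : ℕ, i < n → ‖x ^ i - 1‖ < 1) : x = 1 := by
  by_contra hne
  have h1 : ∑ i ∈ range n, x ^ i = 0 := by
    have := mul_geom_sum x n
    rw [hx, sub_self] at this
    exact (mul_eq_zero.1 this).resolve_left (sub_ne_zero.2 hne)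
  have h2 : ∑ i ∈ range n, (x ^ i - 1) = -(n : ℂ) := by
    rw [Finset.sum_sub_distrib, h1]; simp
  have h3 : ‖∑ i ∈ range n, (x ^ i - 1)‖ < ∑ _i ∈ range n, (1 : ℝ) :=
    (norm_sum_le _ _).trans_lt
      (Finset.sum_lt_sum_of_nonempty (nonempty_range_iff.2 hn.ne') fun i hi => h i (mem_range.1 hi))
  rw [h2] at h3
  simp at h3

lemma twoB_abs {a b c d : ℤ} {U : ℝ} (ha : (|a| : ℝ) ≤ U) (hb : (|b| : ℝ) ≤ U)
    (hc : (|c| : ℝ) ≤ U) (hd : (|d| : ℝ) ≤ U) : |((a * b + c * d : ℤ) : ℝ)| ≤ 2 * U ^ 2 := by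
  have hU : 0 ≤ U := (abs_nonneg _).trans ha
  push_cast
  refine (abs_add_le _ _).trans ?_
  rw [abs_mul, abs_mul]
  have h1 := mul_le_mul ha hb (abs_nonneg _) hU
  have h2 := mul_le_mul hc hd (abs_nonneg _) hU
  nlinarith

theorem sTwoB (h : SMono) : STwoB := by
  intro P Q
  obtain ⟨C, hC⟩ := h P Q
  refine ⟨C + 6, ?_⟩
  intro g ω p₀ q₀ δ k v w b₁ b₂ c₁ c₂ t V W U hg hω hp₀ hq₀ hδ hV hW hvw hU hc₁ hc₂ hb₁ hb₂ hD
    hrel hnear hmem hP hQ hfin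
  rw [Int.cast_abs] at hc₁ hc₂
  have hg' : (1 : ℝ) ≤ g := by exact_mod_cast hg
  have hV' : (1 : ℝ) ≤ V := by exact_mod_cast hV
  have hW' : (1 : ℝ) ≤ W := by exact_mod_cast hW
  have hU1 : 1 ≤ U := by
    have h1 : (1 : ℝ) ≤ g * V := one_le_mul_of_one_le_of_one_le hg' hV'
    exact (one_le_mul_of_one_le_of_one_le h1 hW').trans hU
  have hcU : ∀ (c : ℤ) (X : ℝ), 1 ≤ X → (g : ℝ) * |(c : ℝ)| * X ≤ U → (|c| : ℝ) ≤ U := by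
    intro c X hX hc
    have h0 := abs_nonneg (c : ℝ)
    have h1 : |(c : ℝ)| ≤ g * |(c : ℝ)| := le_mul_of_one_le_left h0 hg'
    have h2 : g * |(c : ℝ)| ≤ g * |(c : ℝ)| * X := le_mul_of_one_le_right (by positivity) hX
    linarith
  have hc₁U := hcU c₁ V hV' hc₁
  have hc₂U := hcU c₂ W hW' hc₂
  set ε : ℝ := Real.exp (-(((C + 6 : ℕ) : ℝ) * U)) with hεdef
  have hε0 : 0 < ε := Real.exp_pos _
  have hsmall : 16 * U ^ 2 * ε < Real.exp (-(C * U)) := by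
    have e : Real.exp (-(C * U)) = Real.exp U ^ 6 * ε := by
      rw [hεdef, ← Real.exp_nat_mul, ← Real.exp_add]
      congr 1
      push_cast
      ring
    rw [e]
    refine mul_lt_mul_of_pos_right ?_ hε0
    have h1 : U + 1 ≤ Real.exp U := Real.add_one_le_exp U
    have h2 : U ^ 2 < Real.exp U ^ 2 := pow_lt_pow_left₀ (by linarith) (by linarith) two_ne_zero
    have h3 : (2 : ℝ) ^ 4 ≤ Real.exp U ^ 4 := pow_le_pow_left₀ (by norm_num) (by linarith) 4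
    calc 16 * U ^ 2 < 2 ^ 4 * Real.exp U ^ 2 := by linarith
      _ ≤ Real.exp U ^ 4 * Real.exp U ^ 2 := mul_le_mul_of_nonneg_right h3 (by positivity)
      _ = Real.exp U ^ 6 := by ring
  have hle1 : Real.exp (-(C * U)) ≤ 1 := by
    rw [Real.exp_le_one_iff]
    have : (0 : ℝ) ≤ C * U := by positivity
    linarith
  have hU2 : 1 ≤ U ^ 2 := one_le_pow₀ hU1
  have hε1 : ε ≤ 1 / 2 := by nlinarith
  have hz : ∀ j : ℤ, (|j| : ℝ) ≤ 2 * U ^ 2 → ‖δ ^ j - 1‖ ≤ 8 * U ^ 2 * ε := by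
    intro j hj
    have := twoB_zpow hnear hε1 j hj (by nlinarith)
    linarith
  have hδ0 : δ ≠ 0 := by
    intro h0
    rw [h0, zero_sub, norm_neg, norm_one] at hnear
    linarith
  have hp0 : p₀ ≠ 0 := by
    intro h0; have := twoB_norm hp₀; rw [h0, norm_zero] at this; exact zero_ne_one this
  have hq0 : q₀ ≠ 0 := by
    intro h0; have := twoB_norm hq₀; rw [h0, norm_zero] at this; exact zero_ne_one this
  obtain ⟨m₁, m₂, hm, hm'⟩ : ∃ m₁ m₂ : ℕ, (m₁ : ℤ) - m₂ = -c₂ ∧ (m₁ : ℤ) + m₂ = |c₂| :=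
    ⟨(-c₂).toNat, c₂.toNat, by omega, by rcases abs_cases c₂ with h1 | h1 <;> omega⟩
  obtain ⟨n₁, n₂, hn, hn'⟩ : ∃ n₁ n₂ : ℕ, (n₁ : ℤ) - n₂ = c₁ ∧ (n₁ : ℤ) + n₂ = |c₁| :=
    ⟨c₁.toNat, (-c₁).toNat, by omega, by rcases abs_cases c₁ with h1 | h1 <;> omega⟩
  have hmR : (m₁ : ℝ) + m₂ = |(c₂ : ℝ)| := by exact_mod_cast hm'
  have hnR : (n₁ : ℝ) + n₂ = |(c₁ : ℝ)| := by exact_mod_cast hn'
  have hle : ∀ a b : ℕ, (a : ℝ) + b ≤ U → (|((a : ℤ) : ℝ)| ≤ U ∧ |((b : ℤ) : ℝ)| ≤ U) := by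
    intro a b hab
    have ha : (0 : ℝ) ≤ a := Nat.cast_nonneg a
    have hb : (0 : ℝ) ≤ b := Nat.cast_nonneg b
    simp only [Int.cast_natCast, Nat.abs_cast]
    constructor <;> linarith
  obtain ⟨hm₁, hm₂⟩ := hle m₁ m₂ (by rw [hmR]; exact hc₂U)
  obtain ⟨hn₁, hn₂⟩ := hle n₁ n₂ (by rw [hnR]; exact hc₁U)
  have hu : p₀ ^ m₁ * q₀ ^ n₁ = ω ^ t * p₀ ^ m₂ * q₀ ^ n₂ := by
    rw [← hrel, ← hm, ← hn, zpow_sub₀ hp0, zpow_sub₀ hq0]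
    simp only [zpow_natCast]
    field_simp
  have e1 : (p₀ * δ ^ b₁) ^ m₁ * (q₀ * δ ^ b₂) ^ n₁ =
      p₀ ^ m₁ * q₀ ^ n₁ * δ ^ (b₁ * m₁ + b₂ * n₁) := by
    rw [zpow_add₀ hδ0, zpow_mul, zpow_mul, zpow_natCast, zpow_natCast, mul_pow, mul_pow]
    ring
  have e2 : ω ^ t * (p₀ * δ ^ b₁) ^ m₂ * (q₀ * δ ^ b₂) ^ n₂ =
      p₀ ^ m₁ * q₀ ^ n₁ * δ ^ (b₁ * m₂ + b₂ * n₂) := by
    rw [hu, zpow_add₀ hδ0, zpow_mul, zpow_mul, zpow_natCast, zpow_natCast, mul_pow, mul_pow]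
    ring
  have hun : ‖p₀ ^ m₁ * q₀ ^ n₁‖ = 1 := by
    rw [norm_mul, norm_pow, norm_pow, twoB_norm hp₀, twoB_norm hq₀]; simp
  have heq : δ ^ (b₁ * m₁ + b₂ * n₁) = δ ^ (b₁ * m₂ + b₂ * n₂) := by
    by_contra hne
    have h1 := hC g ω (p₀ * δ ^ b₁) (q₀ * δ ^ b₂) k v w t m₁ m₂ n₁ n₂ V W U hg hω
      ((twoB_alg hp₀).mul (twoB_algz hδ _)) ((twoB_alg hq₀).mul (twoB_algz hδ _)) hV hW hvw hU
      (by rw [hmR]; exact hc₂) (by rw [hnR]; exact hc₁) hmem hfin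
      (twoB_ne P _ _ p₀ q₀ _ _ _ _ hp0 hq0 hP) (twoB_ne Q _ _ p₀ q₀ _ _ _ _ hp0 hq0 hQ) (by
        rw [e1, e2]
        intro h2
        exact hne (mul_left_cancel₀ (mul_ne_zero (pow_ne_zero _ hp0) (pow_ne_zero _ hq0)) h2))
    rw [e1, e2, ← mul_sub, norm_mul, hun, one_mul] at h1
    have h2 := hz _ (twoB_abs hb₁ hm₁ hb₂ hn₁)
    have h3 := hz _ (twoB_abs hb₁ hm₂ hb₂ hn₂)
    have h4 := norm_sub_le (δ ^ (b₁ * m₁ + b₂ * n₁) - 1) (δ ^ (b₁ * m₂ + b₂ * n₂) - 1)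
    rw [sub_sub_sub_cancel_right] at h4
    linarith
  have hDpow : δ ^ (b₁ * -c₂ + b₂ * c₁) = 1 := by
    have e : b₁ * -c₂ + b₂ * c₁ = (b₁ * m₁ + b₂ * n₁) - (b₁ * m₂ + b₂ * n₂) := by
      rw [← hm, ← hn]; ring
    rw [e, zpow_sub₀ hδ0, heq, div_self (zpow_ne_zero _ hδ0)]
  have hDabs : |((b₁ * -c₂ + b₂ * c₁ : ℤ) : ℝ)| ≤ 2 * U ^ 2 :=
    twoB_abs hb₁ (by simpa using hc₂U) hb₂ hc₁U
  have hD0 : b₁ * -c₂ + b₂ * c₁ ≠ 0 := fun h0 => hD (by linarith)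
  generalize b₁ * -c₂ + b₂ * c₁ = D at hDpow hDabs hD0
  have hδ1 : δ = 1 := by
    refine twoB_one (n := D.natAbs) (Int.natAbs_pos.2 hD0) ?_ fun i hi => ?_
    · rcases Int.natAbs_eq D with h1 | h1
      · rw [← zpow_natCast, ← h1, hDpow]
      · rw [h1, zpow_neg, zpow_natCast, inv_eq_one] at hDpow
        exact hDpow
    · have h1 : (i : ℝ) ≤ |(D : ℝ)| := by
        have : (i : ℤ) ≤ |D| := by rw [← Int.natCast_natAbs]; exact_mod_cast hi.le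
        exact_mod_cast this
      have h2 := hz i (by simpa using h1.trans hDabs)
      rw [zpow_natCast] at h2
      nlinarith
  have h5 := hmem.2.2.1
  simp only [hδ1, one_zpow, mul_one] at h5
  exact hP h5

end Pool.Agent.MP_c1891a_nt.H43
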